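import Mathlib
import Pool.Agent.H5.EulerFrozen
import Pool.Agent.CZ.EFI

set_option autoImplicit false

namespace Pool.Agent.Results.MP_553913_nt.CriticalZeros

open Complex (I)

/-- `a_p = p - #{(x,y) mod p : y² = x³ + a x + b}`, for a prime `p` of good reduction. -/
def trace (a b : ℤ) (p : ℕ) : ℤ :=
  (p : ℤ) - ((((Finset.range p) ×ˢ (Finset.range p)).filter
    (fun xy : ℕ × ℕ => (p : ℤ) ∣ (xy.2 : ℤ) ^ 2 - ((xy.1 : ℤ) ^ 3 + a * (xy.1 : ℤ) + b))).card : ℤ)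

/-- `F` is entire and equal, for `Re s > 3/2`, to the Euler product of `y² = x³ + a x + b` over the
primes not dividing `2(4a³+27b²)`. -/
def IsLFunction (a b : ℤ) (F : ℂ → ℂ) : Prop :=
  Differentiable ℂ F ∧ ∀ s : ℂ, 3 / 2 < s.re →
    F s = ∏' p : {p : ℕ // p.Prime ∧ ¬ ((p : ℤ) ∣ 2 * (4 * a ^ 3 + 27 * b ^ 2))},
      (1 - (trace a b p.1 : ℂ) * (p.1 : ℂ) ^ (-s) + (p.1 : ℂ) * (p.1 : ℂ) ^ (-2 * s))⁻¹

/-- The number of real `t` in `[T₁, T₂]` such that `1 + i t` is a zero of `F` of odd order. -/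
noncomputable def oddZeros (F : ℂ → ℂ) (T₁ T₂ : ℝ) : ℝ :=
  ({t : ℝ | t ∈ Set.Icc T₁ T₂ ∧ F (1 + t * I) = 0 ∧ Odd (analyticOrderNatAt F (1 + t * I))}.ncard : ℝ)

theorem result :
    -- existence of the L-functions of the curves `E_d : y² = x³ - d² x`
    (∀ d : ℕ, Squarefree d → ∃ F : ℂ → ℂ, IsLFunction (-(d : ℤ) ^ 2) 0 F) ∧
    ∀ F : ℕ → ℂ → ℂ, (∀ d : ℕ, Squarefree d → IsLFunction (-(d : ℤ) ^ 2) 0 (F d)) →
      -- for almost all `d`, every segment `[1 + i a, 1 + i b]` of length at least `(log X)^(-κ)`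
      -- between the heights `T₁` and `T₂` contains at least `(b - a) (log X)^(1-ε)` zeros of
      -- odd order
      ∀ ε T₁ T₂ : ℝ, 0 < ε → 0 < T₁ → T₁ < T₂ → ∃ κ C : ℝ, 0 < κ ∧ ∀ X : ℕ, 3 ≤ X →
        ({d : ℕ | 1 ≤ d ∧ d ≤ X ∧ Squarefree d ∧ ∃ a b : ℝ, T₁ ≤ a ∧ b ≤ T₂ ∧
            (Real.log X) ^ (-κ) ≤ b - a ∧
            oddZeros (F d) a b < (b - a) * (Real.log X) ^ (1 - ε)}.ncard : ℝ) ≤
          C * X / (Real.log X) ^ κ := by
  have hex : ∀ d : ℕ, Squarefree d → ∀ G : ℂ → ℂ, IsLFunction (-(d : ℤ) ^ 2) 0 G ↔ ZD.IsL d G := by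
    intro d hd G
    constructor
    · intro h
      refine ⟨h.1, fun s hs => ?_⟩
      rw [h.2 s hs]
      exact (H5.frozen_euler (d : ℤ) hs).tprod_eq
    · intro h
      refine ⟨h.1, fun s hs => ?_⟩
      rw [h.2 s hs]
      exact (H5.frozen_euler (d : ℤ) hs).tprod_eq.symm
  refine ⟨?_, ?_⟩
  · intro d hd
    exact ⟨ZD.Lf d, (hex d hd _).mpr (ZD.Lf_spec hd)⟩
  · intro F hF ε T₁ T₂ hε hT hT'
    have hFL : ∀ d : ℕ, Squarefree d → F d = ZD.Lf d := fun d hd =>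
      ZD.isL_unique ((hex d hd _).mp (hF d hd)) (ZD.Lf_spec hd)
    have hNZ : ∀ d : ℕ, Squarefree d → ∀ a b : ℝ, oddZeros (F d) a b = CZ.NZ d a b := by
      intro d hd a b
      rw [hFL d hd]
      rfl
    obtain ⟨κ, C, hκ, h⟩ := CZ.zeros_many2 ε T₁ T₂ hε hT hT'
    refine ⟨κ, C, hκ, fun X hX => ?_⟩
    have e : {d : ℕ | 1 ≤ d ∧ d ≤ X ∧ Squarefree d ∧ ∃ a b : ℝ, T₁ ≤ a ∧ b ≤ T₂ ∧
          (Real.log X) ^ (-κ) ≤ b - a ∧
          oddZeros (F d) a b < (b - a) * (Real.log X) ^ (1 - ε)} =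
        {d : ℕ | 1 ≤ d ∧ d ≤ X ∧ Squarefree d ∧ CZ.Few d T₁ T₂ (Real.log X) κ ε} := by
      ext d
      simp only [Set.mem_ofPred_eq, CZ.Few]
      refine and_congr_right fun _ => and_congr_right fun _ => and_congr_right fun hd => ?_
      refine exists_congr fun a => exists_congr fun b => ?_
      rw [hNZ d hd]
    rw [e]
    exact h X hX

end Pool.Agent.Results.MP_553913_nt.CriticalZeros
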