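import Mathlib
import Pool.Agent.H5.EulerFrozen
import Pool.Agent.H5.ThetaFE
import Pool.Agent.H5.GenStrip
import Pool.Agent.H5.EdEuler
import Pool.Agent.H6.Transfer
import Pool.Agent.HD64.FamV

set_option autoImplicit false

namespace Pool.Agent.Results.MP_553913_nt.DerivativeFamily

/-- `a_p = p - #{(x,y) mod p : y² = x³ + a x + b}`, for a prime `p` of good reduction. -/
def trace (a b : ℤ) (p : ℕ) : ℤ :=
  (p : ℤ) - ((((Finset.range p) ×ˢ (Finset.range p)).filter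
    (fun xy : ℕ × ℕ => (p : ℤ) ∣ (xy.2 : ℤ) ^ 2 - ((xy.1 : ℤ) ^ 3 + a * (xy.1 : ℤ) + b))).card : ℤ)

/-- `F` is entire and equal, for `Re s > 3/2`, to the Euler product of `y² = x³ + a x + b` over the
primes not dividing `2(4a³+27b²)`. -/
def IsLFunction (a b : ℤ) (F : ℂ → ℂ) : Prop :=
  Differentiable ℂ F ∧ ∀ s : ℂ, 3 / 2 < s.re →
    F s = ∏' p : {p : ℕ // p.Prime ∧ ¬ ((p : ℤ) ∣ 2 * (4 * a ^ 3 + 27 * b ^ 2))},
      (1 - (trace a b p.1 : ℂ) * (p.1 : ℂ) ^ (-s) + (p.1 : ℂ) * (p.1 : ℂ) ^ (-2 * s))⁻¹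

/-- `Λ` is the entire function equal to `N^{s/2} (2π)^{-s} Γ(s) F(s)` for `Re s > 0`. -/
def IsCompleted (N : ℕ) (F Λ : ℂ → ℂ) : Prop :=
  Differentiable ℂ Λ ∧ ∀ s : ℂ, 0 < s.re →
    Λ s = (N : ℂ) ^ (s / 2) * ((2 * Real.pi : ℝ) : ℂ) ^ (-s) * Complex.Gamma s * F s

/-- The conductor of `y² = x³ - d² x`, `d` squarefree. -/
def conductor (d : ℕ) : ℕ := if Even d then 16 * d ^ 2 else 32 * d ^ 2

/-- `s` is a zero of the `m`-th derivative of `Λ` which is off the critical line `Re s = 1` or not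
simple. -/
def IsBadZero (Λ : ℂ → ℂ) (m : ℕ) (s : ℂ) : Prop :=
  iteratedDeriv m Λ s = 0 ∧ ¬ (s.re = 1 ∧ iteratedDeriv (m + 1) Λ s ≠ 0)

theorem result :
    -- existence of the L-functions and completed L-functions of the curves `E_d : y² = x³ - d² x`
    (∀ d : ℕ, Squarefree d → ∃ F Λ : ℂ → ℂ, IsLFunction (-(d : ℤ) ^ 2) 0 F ∧
      IsCompleted (conductor d) F Λ) ∧
    ∀ F Λ : ℕ → ℂ → ℂ, (∀ d : ℕ, Squarefree d → IsLFunction (-(d : ℤ) ^ 2) 0 (F d) ∧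
        IsCompleted (conductor d) (F d) (Λ d)) →
      -- density of the `d ≤ X` with a bad zero (any height) of some derivative of order
      -- `m ≥ b + A log(|Im s|+2)`
      (∃ (A : ℕ) (c : ℝ), 0 < c ∧ ∀ (X : ℕ) (b : ℝ), 3 ≤ X → 0 ≤ b →
        ({d : ℕ | 1 ≤ d ∧ d ≤ X ∧ Squarefree d ∧ ∃ (m : ℕ) (s : ℂ),
            b + A * Real.log (|s.im| + 2) ≤ m ∧ IsBadZero (Λ d) m s}.ncard : ℝ) ≤
          A * Real.log X ^ A * Real.exp (-(c * b)) * X) ∧
      -- hence for almost all `d`: all heights, all orders `m ≥ C log((|Im s|+2) log d)`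
      (∀ B : ℕ, ∃ C : ℝ, 0 < C ∧ ∀ X : ℕ, 3 ≤ X →
        ({d : ℕ | 1 ≤ d ∧ d ≤ X ∧ Squarefree d ∧ ∃ (m : ℕ) (s : ℂ),
            C * Real.log ((|s.im| + 2) * Real.log d) ≤ m ∧ IsBadZero (Λ d) m s}.ncard : ℝ) ≤
          C * (X / Real.log X ^ B)) := by
  have hpos : ∀ d : ℕ, Squarefree d → (0:ℝ) < (conductor d : ℝ) := by
    intro d hd
    have hd0 : 0 < d := Nat.pos_of_ne_zero hd.ne_zero
    unfold conductor
    split_ifs <;> (push_cast; positivity)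
  -- first construction
  have key1 : ∀ d : ℕ, Squarefree d → ∃ (F Λ : ℂ → ℂ), HD64.HasEu d Λ ∧
      IsLFunction (-(d : ℤ) ^ 2) 0 F ∧ IsCompleted (conductor d) F Λ := by
    intro d hd
    obtain ⟨w, L, Λ, D⟩ := H5.eulerData_E d hd
    have hcond : H5.cond d = conductor d := rfl
    have D' := D
    rw [hcond] at D'
    have hL : IsLFunction (-(d : ℤ) ^ 2) 0 L := by
      refine ⟨D.entire, fun s hs => ?_⟩
      rw [D.euler s hs, (H5.euler_E (d : ℤ) hs).tprod_eq]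
      exact (H5.frozen_euler (d : ℤ) hs).tprod_eq.symm
    refine ⟨L, Λ, ⟨w, L, D⟩, hL, D.entireΛ, ?_⟩
    intro s hs
    have hN0 := hpos d hd
    have hM0 : 0 < √(conductor d : ℝ) / (2 * Real.pi) := by
      have := Real.pi_pos
      have := Real.sqrt_pos.2 hN0
      positivity
    have hLG : L = H6.divGamma (√(conductor d : ℝ) / (2 * Real.pi)) Λ := by
      apply H6.eq_of_eq_halfplane D.entire (H6.differentiable_divGamma hM0 D.entireΛ) (a := 3 / 2)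
      intro z hz
      rw [H6.divGamma_eq hM0 (by linarith) (D'.completed' hz)]
    have hG : Complex.Gamma s ≠ 0 := Complex.Gamma_ne_zero_of_re_pos hs
    have h1 := H6.mul_divGamma hM0 Λ hG
    rw [← hLG, ← H6.cpow_half hN0] at h1
    rw [← h1]
    push_cast
    ring
  -- second construction
  have key2 : ∀ d : ℕ, Squarefree d → ∃ (w : ℂ) (Λ : ℂ → ℂ),
      H6.FEData (√(H5.Q d) / Real.pi) Λ (H5.Lser d) w ∧
      H6.EdData d (√(H5.Q d) / Real.pi) Λ := by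
    intro d hd
    obtain ⟨w, hw, hfe⟩ := H5.Th_fe d hd
    have hQ0 : (0:ℝ) < ((H5.Q d : ℕ) : ℝ) := by
      have hd0 : 0 < d := Nat.pos_of_ne_zero hd.ne_zero
      have : 0 < H5.Q d := by
        unfold H5.Q
        split_ifs <;> positivity
      exact_mod_cast this
    obtain ⟨Λ, D, hΛ⟩ := H6.exists_FEData (d : ℤ) hQ0 hw hfe
    exact ⟨(w : ℂ), Λ, D, ⟨H6.exists_ThData hd, D.diff, hΛ⟩⟩
  refine ⟨fun d hd => ?_, ?_⟩
  · obtain ⟨F, Λ, -, h1, h2⟩ := key1 d hd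
    exact ⟨F, Λ, h1, h2⟩
  intro F Λ hFΛ
  have hfam : HD64.IsFamV Λ := by
    intro d hd
    obtain ⟨hF, hΛ⟩ := hFΛ d hd
    obtain ⟨F₀, Λ₀, hE, hF₀, hΛ₀⟩ := key1 d hd
    obtain ⟨w, Λ₁, D, E⟩ := key2 d hd
    have e1 : F d = F₀ := by
      apply H6.eq_of_eq_halfplane hF.1 hF₀.1 (a := 3 / 2)
      intro z hz
      rw [hF.2 z hz, hF₀.2 z hz]
    have e2 : Λ d = Λ₀ := by
      apply H6.eq_of_eq_halfplane hΛ.1 hΛ₀.1 (a := 0)
      intro z hz
      rw [hΛ.2 z hz, hΛ₀.2 z hz, e1]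
    have hN0 := hpos d hd
    have hQ : ((H5.Q d : ℕ) : ℝ) = (conductor d : ℝ) / 4 := by
      unfold H5.Q conductor
      split_ifs <;> (push_cast; ring)
    have hMN : √(H5.Q d) / Real.pi = √(conductor d : ℝ) / (2 * Real.pi) := by
      rw [hQ, Real.sqrt_div' _ (by norm_num : (0:ℝ) ≤ 4)]
      have : √(4:ℝ) = 2 := by
        rw [show (4:ℝ) = 2 ^ 2 by norm_num, Real.sqrt_sq (by norm_num)]
      rw [this]
      field_simp
    have e3 : Λ d = Λ₁ := by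
      apply H6.eq_of_eq_halfplane hΛ.1 D.diff (a := 3 / 2)
      intro z hz
      rw [hΛ.2 z (by linarith), E.eqL z hz, hF.2 z hz, hMN]
      have h2 := H6.cpow_half hN0 (s := z)
      have h3 : (conductor d : ℂ) ^ (z / 2) * ((2 * Real.pi : ℝ) : ℂ) ^ (-z)
          = ((√(conductor d : ℝ) / (2 * Real.pi) : ℝ) : ℂ) ^ z := by
        rw [← h2]; push_cast; ring
      rw [h3]
      congr 1
      exact (H5.frozen_euler (d : ℤ) hz).tprod_eq
    rw [← e2] at hE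
    rw [← e3] at D E
    exact ⟨⟨w, D, E⟩, hE⟩
  constructor
  · obtain ⟨A, c, hc, hA⟩ := HD64.fam_mainV
    exact ⟨A, c, hc, fun X b hX hb => hA Λ hfam X b hX hb⟩
  · intro B
    obtain ⟨C, hC0, hC⟩ := HD64.fam_corV B
    exact ⟨C, hC0, fun X hX => hC Λ hfam X hX⟩

end Pool.Agent.Results.MP_553913_nt.DerivativeFamily
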