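import Mathlib
import Pool.Agent.H5.EulerFrozen
import Pool.Agent.H5.ThetaFE
import Pool.Agent.H6.Transfer
import Pool.Agent.HD64.Cor

set_option autoImplicit false

open MeasureTheory

namespace Pool.Agent.Results.MP_553913_nt.HeatFamily

/-- `a_p = p - #{(x,y) mod p : y² = x³ + a x + b}`, for a prime `p` of good reduction. -/
def trace (a b : ℤ) (p : ℕ) : ℤ :=
  (p : ℤ) - ((((Finset.range p) ×ˢ (Finset.range p)).filter
    (fun xy : ℕ × ℕ => (p : ℤ) ∣ (xy.2 : ℤ) ^ 2 - ((xy.1 : ℤ) ^ 3 + a * (xy.1 : ℤ) + b))).card : ℤ)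

/-- `F` is entire and equal, for `Re s > 3/2`, to the Euler product of `y² = x³ + a x + b` over the
primes not dividing `2(4a³+27b²)`. -/
def IsLFunction (a b : ℤ) (F : ℂ → ℂ) : Prop :=
  Differentiable ℂ F ∧ ∀ s : ℂ, 3 / 2 < s.re →
    F s = ∏' p : {p : ℕ // p.Prime ∧ ¬ ((p : ℤ) ∣ 2 * (4 * a ^ 3 + 27 * b ^ 2))},
      (1 - (trace a b p.1 : ℂ) * (p.1 : ℂ) ^ (-s) + (p.1 : ℂ) * (p.1 : ℂ) ^ (-2 * s))⁻¹

/-- The completed function `N^{s/2} (2π)^{-s} Γ(s) F(s)`. -/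
noncomputable def completed (N : ℝ) (F : ℂ → ℂ) (s : ℂ) : ℂ :=
  (N : ℂ) ^ (s / 2) * ((2 * Real.pi : ℝ) : ℂ) ^ (-s) * Complex.Gamma s * F s

/-- The heat flow `Λ_t(s) = (4πt)^{-1/2} ∫ Λ(s+v) exp(-v²/(4t)) dv` applied to the completed
function `Λ(s) = N^{s/2} (2π)^{-s} Γ(s) F(s)`. -/
noncomputable def heatFlow (N : ℝ) (F : ℂ → ℂ) (t : ℝ) (s : ℂ) : ℂ :=
  (((4 * Real.pi * t) ^ (-(1 / 2 : ℝ)) : ℝ) : ℂ) *
    ∫ v : ℝ, completed N F (s + v) * ((Real.exp (-(v ^ 2 / (4 * t))) : ℝ) : ℂ)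

/-- The conductor of `y² = x³ - d² x`, `d` squarefree. -/
def conductor (d : ℕ) : ℕ := if Even d then 16 * d ^ 2 else 32 * d ^ 2

/-- `s` is a zero of the heat flow `Λ_t` of `y² = x³ - d² x` which is off the critical line
`Re s = 1` or not simple. -/
def IsBadZero (d : ℕ) (F : ℂ → ℂ) (t : ℝ) (s : ℂ) : Prop :=
  heatFlow (conductor d) F t s = 0 ∧ ¬ (s.re = 1 ∧ deriv (heatFlow (conductor d) F t) s ≠ 0)

theorem result :
    -- existence of the L-functions of the curves `E_d : y² = x³ - d² x`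
    (∀ d : ℕ, Squarefree d → ∃ F : ℂ → ℂ, IsLFunction (-(d : ℤ) ^ 2) 0 F) ∧
    ∀ F : ℕ → ℂ → ℂ, (∀ d : ℕ, Squarefree d → IsLFunction (-(d : ℤ) ^ 2) 0 (F d)) →
      -- density of the `d ≤ X` with a bad zero (any height) of the flow at a time
      -- `t ≥ τ + A log(|Im s|+2) / (log X)²`
      (∃ A : ℕ, ∀ (X : ℕ) (τ : ℝ), 3 ≤ X → 0 ≤ τ → τ * Real.log X ≤ 1 →
        ({d : ℕ | 1 ≤ d ∧ d ≤ X ∧ Squarefree d ∧ ∃ (t : ℝ) (s : ℂ), 0 < t ∧ t ≤ 1 / 8 ∧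
            τ + A * Real.log (|s.im| + 2) / Real.log X ^ 2 ≤ t ∧ IsBadZero d (F d) t s}.ncard : ℝ) ≤
          A * Real.log X ^ A * Real.exp (-(τ * Real.log X ^ 2 / (3 * 10 ^ 6))) * X) ∧
      -- hence for almost all `d`: all heights, all times `t ≥ C log((|Im s|+2) log d) / (log d)²`
      (∀ B : ℕ, ∃ C : ℝ, 0 < C ∧ ∀ X : ℕ, 3 ≤ X →
        ({d : ℕ | 1 ≤ d ∧ d ≤ X ∧ Squarefree d ∧ ∃ (t : ℝ) (s : ℂ), 0 < t ∧ t ≤ 1 / 8 ∧
            C * Real.log ((|s.im| + 2) * Real.log d) / Real.log d ^ 2 ≤ t ∧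
            IsBadZero d (F d) t s}.ncard : ℝ) ≤
          C * (X / Real.log X ^ B)) := by
  have key : ∀ d : ℕ, ∃ Λ : ℂ → ℂ, Squarefree d → ∃ w : ℂ,
      H6.FEData (√(H5.Q d) / Real.pi) Λ (H5.Lser d) w ∧
      H6.EdData d (√(H5.Q d) / Real.pi) Λ := by
    intro d
    by_cases hd : Squarefree d
    · have hd0 : 0 < d := Nat.pos_of_ne_zero hd.ne_zero
      obtain ⟨w, hw, hfe⟩ := H5.Th_fe d hd
      have hQ0 : (0:ℝ) < ((H5.Q d : ℕ) : ℝ) := by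
        have : 0 < H5.Q d := by
          unfold H5.Q
          split_ifs <;> positivity
        exact_mod_cast this
      obtain ⟨Λ, D, hΛ⟩ := H6.exists_FEData (d : ℤ) hQ0 hw hfe
      exact ⟨Λ, fun _ => ⟨(w : ℂ), D, ⟨H6.exists_ThData hd, D.diff, hΛ⟩⟩⟩
    · exact ⟨fun _ => 0, fun h => absurd h hd⟩
  choose Λ hΛ using key
  have hfam : HD64.IsFam Λ := fun d hd => hΛ d hd
  have hLF : ∀ d : ℕ, Squarefree d →
      IsLFunction (-(d : ℤ) ^ 2) 0 (H6.divGamma (√(H5.Q d) / Real.pi) (Λ d)) := by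
    intro d hd
    obtain ⟨w, D, E⟩ := hΛ d hd
    refine ⟨H6.differentiable_divGamma D.M_pos D.diff, ?_⟩
    intro s hs
    rw [H6.divGamma_eq D.M_pos (by linarith) (E.eqL s hs)]
    exact (H5.frozen_euler (d : ℤ) hs).tprod_eq.symm
  refine ⟨fun d hd => ⟨_, hLF d hd⟩, ?_⟩
  intro F hF
  have hbad : ∀ d : ℕ, Squarefree d → ∀ (t : ℝ) (s : ℂ), 0 < t → t ≤ 1 / 8 →
      (IsBadZero d (F d) t s ↔ HD64.Exc (Λ d) t s) := by
    intro d hd t s ht ht8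
    obtain ⟨w, D, E⟩ := hΛ d hd
    have hd0 : 0 < d := Nat.pos_of_ne_zero hd.ne_zero
    have hN0 : (0:ℝ) < (conductor d : ℝ) := by
      unfold conductor
      split_ifs <;> (push_cast; positivity)
    have hQ : ((H5.Q d : ℕ) : ℝ) = (conductor d : ℝ) / 4 := by
      unfold H5.Q conductor
      split_ifs <;> (push_cast; ring)
    have hMN : √(H5.Q d) / Real.pi = √(conductor d : ℝ) / (2 * Real.pi) := by
      rw [hQ, Real.sqrt_div' _ (by norm_num : (0:ℝ) ≤ 4)]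
      have : √(4:ℝ) = 2 := by
        rw [show (4:ℝ) = 2 ^ 2 by norm_num, Real.sqrt_sq (by norm_num)]
      rw [this]
      field_simp
    have hFG : F d = H6.divGamma (√(H5.Q d) / Real.pi) (Λ d) := by
      apply H6.eq_of_eq_halfplane (hF d hd).1 (hLF d hd).1 (a := 3 / 2)
      intro z hz
      rw [(hF d hd).2 z hz, (hLF d hd).2 z hz]
    have hheat : heatFlow (conductor d) (F d) t =
        fun z => (((4 * Real.pi * t) ^ (-(1 / 2 : ℝ)) : ℝ) : ℂ) * H6.heatInt t (Λ d) z := by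
      funext z
      unfold heatFlow
      congr 1
      apply H6.heat_congr D.M_pos (Λ d)
      intro u
      unfold completed
      rw [hFG, H6.cpow_half hN0, ← hMN]
    have hc : (((4 * Real.pi * t) ^ (-(1 / 2 : ℝ)) : ℝ) : ℂ) ≠ 0 := by
      have : (0:ℝ) < (4 * Real.pi * t) ^ (-(1 / 2 : ℝ)) := by positivity
      exact_mod_cast this.ne'
    have hder := D.hasDerivAt_heatInt ht ht8 s
    unfold IsBadZero HD64.Exc
    rw [hheat, (hder.const_mul _).deriv, hder.deriv]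
    simp only [mul_eq_zero, hc, false_or, ne_eq]
  constructor
  · obtain ⟨A, hA⟩ := HD64.fam_main
    refine ⟨A, ?_⟩
    intro X τ hX hτ hτ1
    have h := hA Λ hfam X τ hX hτ hτ1
    have e : {d : ℕ | 1 ≤ d ∧ d ≤ X ∧ Squarefree d ∧ ∃ (t : ℝ) (s : ℂ), 0 < t ∧ t ≤ 1 / 8 ∧
        τ + A * Real.log (|s.im| + 2) / Real.log X ^ 2 ≤ t ∧ IsBadZero d (F d) t s} =
        HD64.ExcSet Λ A X τ := by
      ext d
      simp only [HD64.ExcSet, Set.mem_ofPred_eq]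
      constructor
      · rintro ⟨h1, h2, h3, t, s, h4, h5, h6, h7⟩
        exact ⟨h1, h2, h3, t, s, h4, h5, h6, (hbad d h3 t s h4 h5).mp h7⟩
      · rintro ⟨h1, h2, h3, t, s, h4, h5, h6, h7⟩
        exact ⟨h1, h2, h3, t, s, h4, h5, h6, (hbad d h3 t s h4 h5).mpr h7⟩
    rw [e]; exact h
  · intro B
    obtain ⟨C, hC0, hC⟩ := HD64.fam_cor B
    refine ⟨C, hC0, ?_⟩
    intro X hX
    have h := hC Λ hfam X hX
    have e : {d : ℕ | 1 ≤ d ∧ d ≤ X ∧ Squarefree d ∧ ∃ (t : ℝ) (s : ℂ), 0 < t ∧ t ≤ 1 / 8 ∧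
        C * Real.log ((|s.im| + 2) * Real.log d) / Real.log d ^ 2 ≤ t ∧
        IsBadZero d (F d) t s} = HD64.ExcSet2 Λ C X := by
      ext d
      simp only [HD64.ExcSet2, Set.mem_ofPred_eq]
      constructor
      · rintro ⟨h1, h2, h3, t, s, h4, h5, h6, h7⟩
        exact ⟨h1, h2, h3, t, s, h4, h5, h6, (hbad d h3 t s h4 h5).mp h7⟩
      · rintro ⟨h1, h2, h3, t, s, h4, h5, h6, h7⟩
        exact ⟨h1, h2, h3, t, s, h4, h5, h6, (hbad d h3 t s h4 h5).mpr h7⟩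
    rw [e]; exact h

end Pool.Agent.Results.MP_553913_nt.HeatFamily
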