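import Mathlib
import Pool.Agent.H5.EulerFrozen
import Pool.Agent.H6.Transfer
import Pool.Agent.ZD.Final
import Pool.Agent.ZD.Final2

set_option autoImplicit false

namespace Pool.Agent.Results.MP_553913_nt.ZeroDensity

/-- `a_p = p - #{(x,y) mod p : y² = x³ + a x + b}`, for a prime `p` of good reduction. -/
def trace (a b : ℤ) (p : ℕ) : ℤ :=
  (p : ℤ) - ((((Finset.range p) ×ˢ (Finset.range p)).filter
    (fun xy : ℕ × ℕ => (p : ℤ) ∣ (xy.2 : ℤ) ^ 2 - ((xy.1 : ℤ) ^ 3 + a * (xy.1 : ℤ) + b))).card : ℤ)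

/-- `F` is entire and equal, for `Re s > 3/2`, to the Euler product of `y² = x³ + a x + b` over the
primes not dividing `2(4a³+27b²)`. -/
def IsLFunction (a b : ℤ) (F : ℂ → ℂ) : Prop :=
  Differentiable ℂ F ∧ ∀ s : ℂ, 3 / 2 < s.re →
    F s = ∏' p : {p : ℕ // p.Prime ∧ ¬ ((p : ℤ) ∣ 2 * (4 * a ^ 3 + 27 * b ^ 2))},
      (1 - (trace a b p.1 : ℂ) * (p.1 : ℂ) ^ (-s) + (p.1 : ℂ) * (p.1 : ℂ) ^ (-2 * s))⁻¹

theorem result :
    -- existence of the L-functions of the curves `E_d : y² = x³ - d² x`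
    (∀ d : ℕ, Squarefree d → ∃ F : ℂ → ℂ, IsLFunction (-(d : ℤ) ^ 2) 0 F) ∧
    ∀ F : ℕ → ℂ → ℂ, (∀ d : ℕ, Squarefree d → IsLFunction (-(d : ℤ) ^ 2) 0 (F d)) →
      -- density of the `d ≤ X` with a nontrivial zero outside the region of width
      -- `β + A log(|t|+2) / log X` about the critical line, all heights `t` at once
      (∀ κ : ℝ, 0 < κ → κ < 1 / 2 → ∃ A : ℕ, ∀ (X : ℕ) (β : ℝ), 3 ≤ X → 0 ≤ β →
        ({d : ℕ | 1 ≤ d ∧ d ≤ X ∧ Squarefree d ∧ ∃ s : ℂ, F d s = 0 ∧ 0 < s.re ∧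
            β + A * Real.log (|s.im| + 2) / Real.log X ≤ |s.re - 1|}.ncard : ℝ) ≤
          A * (Real.log X) ^ A * (X : ℝ) ^ (1 - κ * β)) ∧
      -- hence for almost all `d`, all nontrivial zeros (all heights)
      (∀ B : ℕ, ∃ C : ℝ, 0 < C ∧ ∀ X : ℕ, 3 ≤ X →
        ({d : ℕ | 1 ≤ d ∧ d ≤ X ∧ Squarefree d ∧ ∃ s : ℂ, F d s = 0 ∧ 0 < s.re ∧
            C * Real.log ((|s.im| + 2) * Real.log d) / Real.log d < |s.re - 1|}.ncard : ℝ) ≤
          C * (X / (Real.log X) ^ B)) := by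
  have hex : ∀ d : ℕ, Squarefree d → ∀ G : ℂ → ℂ, IsLFunction (-(d : ℤ) ^ 2) 0 G ↔ ZD.IsL d G := by
    intro d hd G
    constructor
    · intro h
      refine ⟨h.1, fun s hs => ?_⟩
      rw [h.2 s hs]
      exact (H5.frozen_euler (d : ℤ) hs).tprod_eq
    · intro h
      refine ⟨h.1, fun s hs => ?_⟩
      rw [h.2 s hs]
      exact (H5.frozen_euler (d : ℤ) hs).tprod_eq.symm
  refine ⟨?_, ?_⟩
  · intro d hd
    exact ⟨ZD.Lf d, (hex d hd _).mpr (ZD.Lf_spec hd)⟩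
  · intro F hF
    have hFL : ∀ d : ℕ, Squarefree d → F d = ZD.Lf d := fun d hd =>
      ZD.isL_unique ((hex d hd _).mp (hF d hd)) (ZD.Lf_spec hd)
    constructor
    · intro κ hκ0 hκ2
      obtain ⟨A, hA⟩ := ZD.UBad_le hκ0 hκ2
      refine ⟨A, ?_⟩
      intro X β hX hβ
      have h := hA X β hX hβ
      have e : {d : ℕ | 1 ≤ d ∧ d ≤ X ∧ Squarefree d ∧ ∃ s : ℂ, F d s = 0 ∧ 0 < s.re ∧
            β + A * Real.log (|s.im| + 2) / Real.log X ≤ |s.re - 1|} = ZD.UBad A X β := by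
        ext d
        simp only [ZD.UBad, Set.mem_ofPred_eq, Finset.mem_Icc]
        constructor
        · rintro ⟨h1, h2, h3, s, hs⟩
          rw [hFL d h3] at hs
          exact ⟨⟨h1, h2⟩, h3, s, hs⟩
        · rintro ⟨⟨h1, h2⟩, h3, s, hs⟩
          rw [← hFL d h3] at hs
          exact ⟨h1, h2, h3, s, hs⟩
      rw [e]; exact h
    · intro B
      obtain ⟨C, hC0, hC⟩ := ZD.Exc_le B
      refine ⟨C, hC0, ?_⟩
      intro X hX
      have h := hC X hX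
      have e : {d : ℕ | 1 ≤ d ∧ d ≤ X ∧ Squarefree d ∧ ∃ s : ℂ, F d s = 0 ∧ 0 < s.re ∧
            C * Real.log ((|s.im| + 2) * Real.log d) / Real.log d < |s.re - 1|} = ZD.Exc C X := by
        ext d
        simp only [ZD.Exc, Set.mem_ofPred_eq, Finset.mem_Icc]
        constructor
        · rintro ⟨h1, h2, h3, s, hs⟩
          rw [hFL d h3] at hs
          exact ⟨⟨h1, h2⟩, h3, s, hs⟩
        · rintro ⟨⟨h1, h2⟩, h3, s, hs⟩
          rw [← hFL d h3] at hs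
          exact ⟨h1, h2, h3, s, hs⟩
      rw [e]; exact h

end Pool.Agent.Results.MP_553913_nt.ZeroDensity
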